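import Mathlib
import Pool.Agent.Helper52K9.DL.Crit

/-!
# Double covers and curves through the generic point

Let `k` be a field of characteristic zero, for instance a number field, and let `X` be the double
cover `w² = f(x₁, …, x_N)`, where `f` is irreducible over the algebraic closure of `k`. We consider
families `γ_t(s)` of rational curves through the generic point `x = γ_t(0)` of the affine space,
polynomial in `x`, `t` and `s`, along which `f` is a square times a polynomial `p` of degree at most
four in `s`. The parabola which osculates `√p` at `s = 0` meets `w² = p(s)` in one further point. If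
this fourth point returns to the generic point for the parameter `t = τ` (algebraic over `k(x)`), to
the first order, then `τ` is called special, and `γ_τ'(0)` is a special tangent vector. If `p` is of
degree at most two then all `τ` outside the discriminant are special. A variable `x_l` is called
swept if the unit vector `e_l` is a linear combination of special tangent vectors.

If some swept variable occurs in `f`, and `f` is of degree at most four in each variable which is
not swept, then there is a polynomial `h ≠ 0` in `x` over `k` such that for all extensions `E` of
`k` with a point `(w, c)` of `X` over `E` with `h(c) ≠ 0`: `X` is unirational over `E`, and its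
`E`-rational points are Zariski dense. In particular this holds for the quadratic extensions
`E = k(√f(c))` of `k`, for all rational points `c` with `h(c) ≠ 0`.

Examples: the lines of a split quadric of dimension at least three in the chart
`(1 : u : -q(u))`, with directions `e_a + t e_l - c_l t² e_b`, where `q = u_a u_b + ∑ c_l u_l²`, for
branch divisors of degree at most four on the quadric; the lines of the Lagrangian Grassmannians;
the lines which meet a rational curve along which a sextic branch divisor is singular.

Proof. Let `K` be the function field of `X`. A function `a` in `K` is immovable if `σ a ∈ K` for all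
`k`-homomorphisms `σ : K → K(t₁, …, tₙ)`. The fourth point of the parabola is a rational function of
`t`, that is a homomorphism `K → K(t)`, and its derivative at a special parameter shows that the
derivative of an immovable function in the direction of a special tangent vector is zero. Hence an
immovable function is algebraic over the variables which are not swept. The same parabolas in the
directions of the other variables move them, so all immovable functions are constant. Then the
generic point can be moved to all points of `X` by rational families of rational maps, and these can
be specialized at the points of a dense open subset.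
-/

set_option autoImplicit false

namespace Pool.Agent.Results.MP_b62148_ag.CurveFamilies

open MvPolynomial Pool.Agent.R867.H Pool.Agent.Helper93K9.DC Pool.Agent.Helper52K9.DL

universe u

/-- The double cover `y₀² = f(y₁, …, y_N)` of the affine space. -/
noncomputable def doubleCover {N : ℕ} {k : Type u} [Field k] (f : MvPolynomial (Fin N) k) :
    MvPolynomial (Fin (N + 1)) k :=
  X 0 ^ 2 - rename Fin.succ f

/-- The hypersurface `F = 0` is unirational over `E`: there are rational functions `P₀, …, P_N` over
`E` in some number `n` of variables such that `G(P₀, …, P_N) = 0` if and only if `F` divides `G`,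
for all polynomials `G` over `E`. -/
def IsUnirational {N : ℕ} {k : Type u} [Field k] (F : MvPolynomial (Fin (N + 1)) k) (E : Type u)
    [Field E] [Algebra k E] : Prop :=
  ∃ (n : ℕ) (P : Fin (N + 1) → FractionRing (MvPolynomial (Fin n) E)),
    ∀ G : MvPolynomial (Fin (N + 1)) E, aeval P G = 0 ↔ map (algebraMap k E) F ∣ G

/-- The points with coordinates in `E` are Zariski dense in the hypersurface `F = 0` over `E`: for
every polynomial `G` over `E` which is not divisible by `F` there is such a point with `G ≠ 0`. -/
def IsDense {N : ℕ} {k : Type u} [Field k] (F : MvPolynomial (Fin (N + 1)) k) (E : Type u)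
    [Field E] [Algebra k E] : Prop :=
  ∀ G : MvPolynomial (Fin (N + 1)) E, ¬ map (algebraMap k E) F ∣ G →
    ∃ e : Fin (N + 1) → E, aeval e F = 0 ∧ aeval e G ≠ 0

/-- (1) For some polynomial `h ≠ 0` over `k` and all extensions `E` of `k`: if there is a point
`(w, c)` of `w² = f(x)` with coordinates in `E` and `h(c) ≠ 0`, then the double cover is unirational
over `E`, and the points with coordinates in `E` are Zariski dense in it. (2) There is an extension
`E` of `k` of degree at most two such that the double cover is unirational over `E`, and the
points with coordinates in `E` are Zariski dense in it. -/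
def StronglyPotentiallyDense {N : ℕ} {k : Type u} [Field k] (f : MvPolynomial (Fin N) k) : Prop :=
  (∃ h : MvPolynomial (Fin N) k, h ≠ 0 ∧
    ∀ (E : Type u) [Field E] [Algebra k E] (c : Fin N → E) (w : E),
      w ^ 2 = aeval c f → aeval c h ≠ 0 →
      IsUnirational (doubleCover f) E ∧ IsDense (doubleCover f) E) ∧
  ∃ E : IntermediateField k (AlgebraicClosure k), FiniteDimensional k E ∧
    Module.finrank k E ≤ 2 ∧ IsUnirational (doubleCover f) E ∧ IsDense (doubleCover f) E

/-- The algebraic closure of the field `k(x₁, …, x_N)`. -/
abbrev Closure (k : Type u) [Field k] (N : ℕ) : Type u :=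
  AlgebraicClosure (FractionRing (MvPolynomial (Fin N) k))

/-- A family of rational curves `γ_t(s)` through the generic point `x = γ_t(0)` of the affine space
on which `f = r² p`, where `r = 1` for `s = 0` and `p` is of degree at most four in `s`. The
coordinates of `γ`, and `r` and `p`, are polynomials in `s` whose coefficients are polynomials in
`t` over `k[x]`. -/
structure CurveFamily {N : ℕ} {k : Type u} [Field k] (f : MvPolynomial (Fin N) k) where
  /-- the coordinates of the points of the curves -/
  point : Fin N → Polynomial (Polynomial (MvPolynomial (Fin N) k))
  /-- the polynomial `r` -/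
  root : Polynomial (Polynomial (MvPolynomial (Fin N) k))
  /-- the polynomial `p` -/
  rest : Polynomial (Polynomial (MvPolynomial (Fin N) k))
  /-- the curves pass through the generic point -/
  point_zero : ∀ l, (point l).coeff 0 = Polynomial.C (X l)
  /-- normalization of `r` -/
  root_zero : root.coeff 0 = 1
  /-- the degree of `p` -/
  rest_degree : rest.natDegree ≤ 4
  /-- `f = r² p` on the curves -/
  eq : aeval point f = root ^ 2 * rest

namespace CurveFamily

variable {N : ℕ} {k : Type u} [Field k] {f : MvPolynomial (Fin N) k}

/-- `8 (8 p₀² p₃ - 4 p₀ p₁ p₂ + p₁³)`, where `p = ∑ pᵢ sⁱ`: up to a power of `p₀` the third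
coefficient of `√p`. It is a polynomial in `t` over `k[x]`. -/
noncomputable def third (C : CurveFamily f) : Polynomial (MvPolynomial (Fin N) k) :=
  8 * (8 * C.rest.coeff 0 ^ 2 * C.rest.coeff 3 -
    4 * C.rest.coeff 0 * C.rest.coeff 1 * C.rest.coeff 2 + C.rest.coeff 1 ^ 3)

/-- `(4 p₀ p₂ - p₁²)² - 64 p₀³ p₄`, where `p = ∑ pᵢ sⁱ`. The fourth point of intersection of the
parabola which osculates `√p` at `s = 0` with the curve `w² = p(s)` is over
`s = p₀ · third / denominator`. -/
noncomputable def denominator (C : CurveFamily f) : Polynomial (MvPolynomial (Fin N) k) :=
  (4 * C.rest.coeff 0 * C.rest.coeff 2 - C.rest.coeff 1 ^ 2) ^ 2 -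
    64 * C.rest.coeff 0 ^ 3 * C.rest.coeff 4

/-- The parameter `τ` is special: the denominator does not vanish at `τ`, and `p` is of degree at
most two or `τ` is a simple zero of `third`. -/
def IsSpecial (C : CurveFamily f) (τ : Closure k N) : Prop :=
  C.denominator.eval₂ (algebraMap _ (Closure k N)) τ ≠ 0 ∧
    (C.rest.natDegree ≤ 2 ∨ C.third.eval₂ (algebraMap _ (Closure k N)) τ = 0 ∧
      (Polynomial.derivative C.third).eval₂ (algebraMap _ (Closure k N)) τ ≠ 0)

/-- The tangent vector `γ_τ'(0)`. -/
noncomputable def tangent (C : CurveFamily f) (τ : Closure k N) : Fin N → Closure k N :=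
  fun l => ((C.point l).coeff 1).eval₂ (algebraMap _ (Closure k N)) τ

end CurveFamily

/-- The unit vector `e_l` is a linear combination of tangent vectors `γ_τ'(0)` of families of curves
at special parameters, over the algebraic closure of `k(x)`. -/
def IsSwept {N : ℕ} {k : Type u} [Field k] (f : MvPolynomial (Fin N) k) (l : Fin N) : Prop :=
  Pi.single l 1 ∈ Submodule.span (Closure k N)
    {u | ∃ (C : CurveFamily f) (τ : Closure k N), C.IsSpecial τ ∧ u = C.tangent τ}

/-- Let `f` be a polynomial over a field `k` of characteristic zero which is irreducible over the
algebraic closure of `k`. Suppose that some variable which occurs in `f` is swept, and that `f` is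
of degree at most `4` in each variable which is not swept. Then the double cover `w² = f(x)` is
strongly potentially dense. -/
theorem result {N : ℕ} (k : Type u) [Field k] [CharZero k] (f : MvPolynomial (Fin N) k)
    (hirr : Irreducible (map (algebraMap k (AlgebraicClosure k)) f))
    (hex : ∃ l, IsSwept f l ∧ 1 ≤ degreeOf l f)
    (h4 : ∀ l, IsSwept f l ∨ degreeOf l f ≤ 4) :
    StronglyPotentiallyDense f := by
  obtain ⟨i₀, hi₀, hd⟩ := hex
  refine main_cover hirr (fun ξ hξ => rel_crit (irr_of_map hirr) (I := {l | IsSwept f l}) hi₀ hd
    (fun l hl => (h4 l).resolve_left hl) (fun l hl => ?_) hξ)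
  refine Submodule.span_mono ?_ hl
  rintro u ⟨C, τ, ⟨h1, h2⟩, rfl⟩
  exact ⟨C.point, C.root, C.rest, τ, C.point_zero, C.root_zero, C.rest_degree, C.eq, h1, h2,
    fun l => rfl⟩

end Pool.Agent.Results.MP_b62148_ag.CurveFamilies
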