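import Mathlib
import Pool.Agent.Helper93K9.DC.Core

/-!
# Rational points of double covers of degree four

Let `k` be a field of characteristic zero, for instance a number field, and let `X` be the double
cover `w² = f(x₁, …, x_N)`, where `f` is irreducible over the algebraic closure of `k` and of
degree at most `4` in each variable. We suppose that

* `f` is of degree `1` or `2` in some variable `x_i`, or
* `f` is of total degree at most `4` in two variables `x_i`, `x_j`, and the sections of `f = 0` by
  the planes in these two coordinates are not all unions of lines: the curvature
  `f_j² f_ii - 2 f_i f_j f_ij + f_i² f_jj` is not divisible by `f`.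

Then there is a polynomial `h ≠ 0` in `x` over `k` such that for all extensions `E` of `k` with a
point `(w, x)` of `X` over `E` with `h(x) ≠ 0`: `X` is unirational over `E`, and its `E`-rational
points are Zariski dense. In particular this holds for the quadratic extensions `E = k(√f(c))` of
`k`, for all rational points `c` with `h(c) ≠ 0`.

The second case applies for instance to all smooth double covers of
`ℙ² × ℙ^{n₂} × ⋯ × ℙ^{n_r}`, `n_j ≥ 1`, branched in multidegree `(4, …, 4)`: they are fibred in del
Pezzo surfaces of degree two, and for `n_j = 1` also in curves of genus one.

Proof. Let `K` be the function field of `X`. A function `a` in `K` is immovable if `σ a ∈ K` for all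
`k`-homomorphisms `σ : K → K(t₁, …, tₙ)`. On the line through the generic point in the direction
`e_i + s e_j` the parabola which osculates `w = √f` meets `X` in one further point, a rational
function of `s`. For the three slopes `s` for which the third differential of `√f` vanishes, it
returns to the generic point, and the derivative there shows that the derivative of an immovable
function in the direction `e_i + s e_j` is zero. So immovable functions do not depend on `x_i` and
`x_j`. The same construction for the other variables gives self-maps which move `x_l` out of the
algebraic closure of the field generated by the other variables except `x_i` and `x_j`, so all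
immovable functions are constant. Then the generic point can be moved to all points of `X` by
rational families of rational maps, and these can be specialized at the points of a dense open
subset. That two of the three slopes are distinct and nondegenerate is shown near a simple tangent
line of the branch divisor, and the general tangent line of a plane curve which is not a union of
lines is simple.
-/

set_option autoImplicit false

namespace Pool.Agent.Results.MP_b62148_ag.DoubleCoversCurvature

open MvPolynomial Pool.Agent.R867.H Pool.Agent.Helper93K9.DC

universe u

/-- The double cover `y₀² = f(y₁, …, y_N)` of the affine space. -/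
noncomputable def doubleCover {N : ℕ} {k : Type u} [Field k] (f : MvPolynomial (Fin N) k) :
    MvPolynomial (Fin (N + 1)) k :=
  X 0 ^ 2 - rename Fin.succ f

/-- The hypersurface `F = 0` is unirational over `E`: there are rational functions `P₀, …, P_N` over
`E` in some number `n` of variables such that `G(P₀, …, P_N) = 0` if and only if `F` divides `G`,
for all polynomials `G` over `E`. -/
def IsUnirational {N : ℕ} {k : Type u} [Field k] (F : MvPolynomial (Fin (N + 1)) k) (E : Type u)
    [Field E] [Algebra k E] : Prop :=
  ∃ (n : ℕ) (P : Fin (N + 1) → FractionRing (MvPolynomial (Fin n) E)),
    ∀ G : MvPolynomial (Fin (N + 1)) E, aeval P G = 0 ↔ map (algebraMap k E) F ∣ G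

/-- The points with coordinates in `E` are Zariski dense in the hypersurface `F = 0` over `E`: for
every polynomial `G` over `E` which is not divisible by `F` there is such a point with `G ≠ 0`. -/
def IsDense {N : ℕ} {k : Type u} [Field k] (F : MvPolynomial (Fin (N + 1)) k) (E : Type u)
    [Field E] [Algebra k E] : Prop :=
  ∀ G : MvPolynomial (Fin (N + 1)) E, ¬ map (algebraMap k E) F ∣ G →
    ∃ e : Fin (N + 1) → E, aeval e F = 0 ∧ aeval e G ≠ 0

/-- (1) For some polynomial `h ≠ 0` over `k` and all extensions `E` of `k`: if there is a point
`(w, c)` of `w² = f(x)` with coordinates in `E` and `h(c) ≠ 0`, then the double cover is unirational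
over `E`, and the points with coordinates in `E` are Zariski dense in it. (2) There is an extension
`E` of `k` of degree at most two such that the double cover is unirational over `E`, and the
points with coordinates in `E` are Zariski dense in it. -/
def StronglyPotentiallyDense {N : ℕ} {k : Type u} [Field k] (f : MvPolynomial (Fin N) k) : Prop :=
  (∃ h : MvPolynomial (Fin N) k, h ≠ 0 ∧
    ∀ (E : Type u) [Field E] [Algebra k E] (c : Fin N → E) (w : E),
      w ^ 2 = aeval c f → aeval c h ≠ 0 →
      IsUnirational (doubleCover f) E ∧ IsDense (doubleCover f) E) ∧
  ∃ E : IntermediateField k (AlgebraicClosure k), FiniteDimensional k E ∧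
    Module.finrank k E ≤ 2 ∧ IsUnirational (doubleCover f) E ∧ IsDense (doubleCover f) E

/-- The curvature `f_j² f_ii - 2 f_i f_j f_ij + f_i² f_jj` of the sections of `f = 0` by the planes
in the coordinates `x_i`, `x_j`. -/
noncomputable def curvature {N : ℕ} {k : Type u} [Field k] (i j : Fin N)
    (f : MvPolynomial (Fin N) k) : MvPolynomial (Fin N) k :=
  pderiv j f ^ 2 * pderiv i (pderiv i f) - 2 * pderiv i f * pderiv j f * pderiv i (pderiv j f) +
    pderiv i f ^ 2 * pderiv j (pderiv j f)

/-- Let `f` be a polynomial over a field `k` of characteristic zero which is irreducible over the
algebraic closure of `k` and of degree at most `4` in each variable. Suppose that `f` is of degree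
`1` or `2` in some variable, or that it is of total degree at most `4` in two variables `x_i`, `x_j`
and does not divide the curvature. Then the double cover `w² = f(x)` is strongly potentially
dense. -/
theorem result {N : ℕ} (k : Type u) [Field k] [CharZero k] (f : MvPolynomial (Fin N) k)
    (hirr : Irreducible (map (algebraMap k (AlgebraicClosure k)) f))
    (h4 : ∀ l, degreeOf l f ≤ 4)
    (h : (∃ i, 1 ≤ degreeOf i f ∧ degreeOf i f ≤ 2) ∨
      ∃ i j, i ≠ j ∧ (∀ m ∈ f.support, m i + m j ≤ 4) ∧ ¬ f ∣ curvature i j f) :
    StronglyPotentiallyDense f := by
  rcases h with ⟨i, h1, h2⟩ | ⟨i, j, hij, hd, hcurv⟩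
  · exact main_cover hirr (fun ξ hξ => rel_conic' hξ (irr_of_map hirr) h1 h2 h4)
  · exact main_cover hirr (fun ξ hξ => rel_q2 hξ (irr_of_map hirr) hij hd h4 hcurv)

end Pool.Agent.Results.MP_b62148_ag.DoubleCoversCurvature
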