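import Mathlib
import Pool.Agent.Helper93K9.DC.Gen

/-!
# Rational points of general double covers of products of projective spaces in low degree

Let `X` be the double cover `w² = f(x)` of `ℙ^{n₁} × ⋯ × ℙ^{n_r}`, branched in multidegree
`(d₁, …, d_r)` with `1 ≤ d_j ≤ 4`, over a field `k` of characteristic zero. If `d_j > 2 n_j` for all
`j`, then all `n_j` are `1` and all `d_j` are `3` or `4`, the canonical divisor of `X` is trivial, and
`X` is not rationally connected if it is smooth. We show that in all other cases the general `X`
is potentially dense in a strong form:

* there is a polynomial `h ≠ 0` in `x` over `k` such that for all extensions `E` of `k` with a point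
  `(w, x)` of `X` over `E` with `h(x) ≠ 0`: `X` is unirational over `E`, and its `E`-rational
  points are Zariski dense;
* in particular this holds for the quadratic extensions `E = k(√f(c))` of `k`, for all rational
  points `c` with `h(c) ≠ 0`.

Here `X` is general if the coefficients of `f` are not a zero of a certain polynomial `Φ ≠ 0` with
rational coefficients, which depends only on the `n_j` and the `d_j`. It is shown as well that then
`f` is irreducible over the algebraic closure. (In affine coordinates `X` is given by a polynomial
`f` in `N = n₁ + ⋯ + n_r` variables, in blocks of `n_j` variables, such that the degree of `f` in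
the block `j` is at most `d_j`. For odd `d_j` also the hyperplane at infinity of the factor `j` is in
the branch divisor.)

Proof. Let `K` be the function field of `X`. A function `a` in `K` is immovable if `σ a ∈ K` for all
`k`-homomorphisms `σ : K → K(t₁, …, tₙ)`. If `x_i` is in a block of degree at most two, then the
immovable functions do not depend on `x_i`, by the fibration in conics. Otherwise `x_i`, `x_j` are
in a block of degree at most four. On the line through the generic point in the direction
`e_i + s e_j` the parabola which osculates `w = √f` meets `X` in one further point. For the three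
slopes `s` for which the third differential of `√f` vanishes, it returns to the generic point,
and the derivative there shows that the derivative of an immovable function in the direction
`e_i + s e_j` is zero. So immovable functions do not depend on `x_i` and `x_j`. The same
construction for the other variables gives self-maps, and it follows that all immovable functions
are constant. Then the generic point can be moved to all points of `X` by rational families of
rational maps, and these can be specialized at the points of a dense open subset.
-/

set_option autoImplicit false

namespace Pool.Agent.Results.MP_b62148_ag.GeneralDoubleCovers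

open MvPolynomial Pool.Agent.R867.H Pool.Agent.Helper93K9.DC

universe u

/-- The double cover `y₀² = f(y₁, …, y_N)` of the affine space. -/
noncomputable def doubleCover {N : ℕ} {k : Type u} [Field k] (f : MvPolynomial (Fin N) k) :
    MvPolynomial (Fin (N + 1)) k :=
  X 0 ^ 2 - rename Fin.succ f

/-- The hypersurface `F = 0` is unirational over `E`: there are rational functions `P₀, …, P_N` over
`E` in some number `n` of variables such that `G(P₀, …, P_N) = 0` if and only if `F` divides `G`,
for all polynomials `G` over `E`. -/
def IsUnirational {N : ℕ} {k : Type u} [Field k] (F : MvPolynomial (Fin (N + 1)) k) (E : Type u)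
    [Field E] [Algebra k E] : Prop :=
  ∃ (n : ℕ) (P : Fin (N + 1) → FractionRing (MvPolynomial (Fin n) E)),
    ∀ G : MvPolynomial (Fin (N + 1)) E, aeval P G = 0 ↔ map (algebraMap k E) F ∣ G

/-- The points with coordinates in `E` are Zariski dense in the hypersurface `F = 0` over `E`: for
every polynomial `G` over `E` which is not divisible by `F` there is such a point with `G ≠ 0`. -/
def IsDense {N : ℕ} {k : Type u} [Field k] (F : MvPolynomial (Fin (N + 1)) k) (E : Type u)
    [Field E] [Algebra k E] : Prop :=
  ∀ G : MvPolynomial (Fin (N + 1)) E, ¬ map (algebraMap k E) F ∣ G →
    ∃ e : Fin (N + 1) → E, aeval e F = 0 ∧ aeval e G ≠ 0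

/-- (1) For some polynomial `h ≠ 0` over `k` and all extensions `E` of `k`: if there is a point
`(w, c)` of `w² = f(x)` with coordinates in `E` and `h(c) ≠ 0`, then the double cover is unirational
over `E`, and the points with coordinates in `E` are Zariski dense in it. (2) There is an extension
`E` of `k` of degree at most two such that the double cover is unirational over `E`, and the
points with coordinates in `E` are Zariski dense in it. -/
def StronglyPotentiallyDense {N : ℕ} {k : Type u} [Field k] (f : MvPolynomial (Fin N) k) : Prop :=
  (∃ h : MvPolynomial (Fin N) k, h ≠ 0 ∧
    ∀ (E : Type u) [Field E] [Algebra k E] (c : Fin N → E) (w : E),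
      w ^ 2 = aeval c f → aeval c h ≠ 0 →
      IsUnirational (doubleCover f) E ∧ IsDense (doubleCover f) E) ∧
  ∃ E : IntermediateField k (AlgebraicClosure k), FiniteDimensional k E ∧
    Module.finrank k E ≤ 2 ∧ IsUnirational (doubleCover f) E ∧ IsDense (doubleCover f) E

/-- The exponents of the monomials whose degree in the variables of the block `j` is at most `d j`,
for all `j`. Here `β l` is the block of the variable `l`. -/
abbrev Exponent {N r : ℕ} (β : Fin N → Fin r) (d : Fin r → ℕ) : Type :=
  {m : Fin N →₀ ℕ // ∀ j, ∑ l with β l = j, m l ≤ d j}

/-- The degree of `f` in the variables of the block `j` is at most `d j`, for all `j`. -/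
def MultidegreeLE {N r : ℕ} (β : Fin N → Fin r) (d : Fin r → ℕ) {k : Type u} [Field k]
    (f : MvPolynomial (Fin N) k) : Prop :=
  ∀ m ∈ f.support, ∀ j, ∑ l with β l = j, m l ≤ d j

/-- Let the `N ≥ 2` variables be divided in `r` nonempty blocks, with `n_j` variables in the block
`j`, let `1 ≤ d_j ≤ 4` for all `j`, and let `d_j ≤ 2 n_j` for some `j`. Then for all polynomials `f`
of degree at most `d_j` in the block `j`, for all `j`, over fields of characteristic zero, whose
coefficients are not a zero of a certain polynomial `Φ ≠ 0` with rational coefficients: `f` is
irreducible over the algebraic closure, and the double cover `w² = f(x)` is strongly potentially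
dense. -/
theorem result {N r : ℕ} (β : Fin N → Fin r) (d : Fin r → ℕ) (hN : 2 ≤ N)
    (hβ : Function.Surjective β) (hd : ∀ j, 1 ≤ d j ∧ d j ≤ 4)
    (h : ∃ j, d j ≤ 2 * (Finset.univ.filter fun l => β l = j).card) :
    ∃ Φ : MvPolynomial (Exponent β d) ℚ, Φ ≠ 0 ∧
      ∀ (k : Type u) [Field k] [CharZero k] (f : MvPolynomial (Fin N) k), MultidegreeLE β d f →
        aeval (fun m : Exponent β d => coeff (m : Fin N →₀ ℕ) f) Φ ≠ 0 →
        Irreducible (map (algebraMap k (AlgebraicClosure k)) f) ∧ StronglyPotentiallyDense f := by
  obtain ⟨Φ, hΦ, hmain⟩ := general_cover.{u} (β := β) (d := d) hN hβ hd h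
  have he : ∀ m : Fin N →₀ ℕ, m ∈ expo β d ↔ ∀ j, ∑ l with β l = j, m l ≤ d j :=
    fun m => mem_expo
  refine ⟨rename (Equiv.subtypeEquivRight he) Φ, fun h0 => hΦ ?_, ?_⟩
  · exact rename_injective _ (Equiv.injective _) (h0.trans (map_zero _).symm)
  intro k _ _ f hsupp hf
  rw [aeval_rename] at hf
  obtain ⟨h1, h2⟩ := hmain f (fun m hm => mem_expo.mpr (hsupp m hm)) hf
  exact ⟨h1, main_cover h1 (fun ξ hξ => h2 ξ hξ)⟩

end Pool.Agent.Results.MP_b62148_ag.GeneralDoubleCovers
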