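import Mathlib
import Pool.Agent.Helper52K9.DL.Gen3

/-!
# Rational points of general double covers of products of quadrics and projective spaces

Let `k` be a field of characteristic zero, for instance a number field, and let `Y` be a product of
`r` factors over `k`, each of which is a projective space `ℙⁿ`, or a smooth quadric of dimension
`n ≥ 3` which contains a line defined over `k`. Suppose that at least one of the factors is a
quadric. Let `X → Y` be the double cover branched in multidegree `(d₁, …, d_r)`, where
`1 ≤ d_j ≤ 4`. We show that the general `X` is potentially dense in a strong form: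

* there is a polynomial `h ≠ 0` in `x` over `k` such that for all extensions `E` of `k` with a point
  `(w, x)` of `X` over `E` with `h(x) ≠ 0`: `X` is unirational over `E`, and its `E`-rational
  points are Zariski dense;
* in particular this holds for the quadratic extensions `E = k(√f(c))` of `k`, for all rational
  points `c` with `h(c) ≠ 0`.

In affine coordinates a quadric of dimension `n ≥ 3` with a line over `k` is the graph of a
quadratic form `q = x_a x_b + ∑ c_l x_l²` in `n` variables, all `c_l ≠ 0`: the quadric
`y₀ y_∞ = q(x)` in the chart `y₀ = 1`. So `X` is given by `w² = f(x)`, where `f = G(x, q(x))` and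
`G` is a polynomial in the coordinates `x` and in one more variable `z_j = q_j(x)` for each factor,
of degree at most `d_j` in `z_j` and the coordinates of the factor `j`. For a projective space we
put `q_j = 0`. Here `X` is general if the coefficients of `G` are not a zero of a certain polynomial
`Φ ≠ 0` over `k`. It is shown as well that then `f` is irreducible over the algebraic closure. The
degree of `f` in a coordinate `x_l` of a quadric can be `2 d_j`.

Proof. Let `K` be the function field of `X`. A function `a` in `K` is immovable if `σ a ∈ K` for all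
`k`-homomorphisms `σ : K → K(t₁, …, tₙ)`. The lines of the quadric through the generic point have
the isotropic directions of `q`; we use the conics `v(t) = e_a + t e_l - c_l t² e_b` of directions.
On these lines `f` is of degree at most four. The parabola which osculates `w = √f` meets `X` in
one further point. For the six values of `t` for which the third differential of `√f` vanishes, it
returns to the generic point, and the derivative there shows that the derivative of an immovable
function in the direction `v(t)` is zero. Any three of these directions are independent. So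
immovable functions do not depend on the coordinates of the quadrics. The same construction for
the other variables gives self-maps, and it follows that all immovable functions are constant. Then
the generic point can be moved to all points of `X` by rational families of rational maps, and these
can be specialized at the points of a dense open subset.
-/

set_option autoImplicit false

namespace Pool.Agent.Results.MP_b62148_ag.QuadricFactors

open MvPolynomial Pool.Agent.R867.H Pool.Agent.Helper93K9.DC Pool.Agent.Helper52K9.DL

universe u

/-- The double cover `y₀² = f(y₁, …, y_N)` of the affine space. -/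
noncomputable def doubleCover {N : ℕ} {k : Type u} [Field k] (f : MvPolynomial (Fin N) k) :
    MvPolynomial (Fin (N + 1)) k :=
  X 0 ^ 2 - rename Fin.succ f

/-- The hypersurface `F = 0` is unirational over `E`: there are rational functions `P₀, …, P_N` over
`E` in some number `n` of variables such that `G(P₀, …, P_N) = 0` if and only if `F` divides `G`,
for all polynomials `G` over `E`. -/
def IsUnirational {N : ℕ} {k : Type u} [Field k] (F : MvPolynomial (Fin (N + 1)) k) (E : Type u)
    [Field E] [Algebra k E] : Prop :=
  ∃ (n : ℕ) (P : Fin (N + 1) → FractionRing (MvPolynomial (Fin n) E)),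
    ∀ G : MvPolynomial (Fin (N + 1)) E, aeval P G = 0 ↔ map (algebraMap k E) F ∣ G

/-- The points with coordinates in `E` are Zariski dense in the hypersurface `F = 0` over `E`: for
every polynomial `G` over `E` which is not divisible by `F` there is such a point with `G ≠ 0`. -/
def IsDense {N : ℕ} {k : Type u} [Field k] (F : MvPolynomial (Fin (N + 1)) k) (E : Type u)
    [Field E] [Algebra k E] : Prop :=
  ∀ G : MvPolynomial (Fin (N + 1)) E, ¬ map (algebraMap k E) F ∣ G →
    ∃ e : Fin (N + 1) → E, aeval e F = 0 ∧ aeval e G ≠ 0

/-- (1) For some polynomial `h ≠ 0` over `k` and all extensions `E` of `k`: if there is a point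
`(w, c)` of `w² = f(x)` with coordinates in `E` and `h(c) ≠ 0`, then the double cover is unirational
over `E`, and the points with coordinates in `E` are Zariski dense in it. (2) There is an extension
`E` of `k` of degree at most two such that the double cover is unirational over `E`, and the
points with coordinates in `E` are Zariski dense in it. -/
def StronglyPotentiallyDense {N : ℕ} {k : Type u} [Field k] (f : MvPolynomial (Fin N) k) : Prop :=
  (∃ h : MvPolynomial (Fin N) k, h ≠ 0 ∧
    ∀ (E : Type u) [Field E] [Algebra k E] (c : Fin N → E) (w : E),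
      w ^ 2 = aeval c f → aeval c h ≠ 0 →
      IsUnirational (doubleCover f) E ∧ IsDense (doubleCover f) E) ∧
  ∃ E : IntermediateField k (AlgebraicClosure k), FiniteDimensional k E ∧
    Module.finrank k E ≤ 2 ∧ IsUnirational (doubleCover f) E ∧ IsDense (doubleCover f) E

/-- `q` is a quadratic form `x_a x_b + ∑ c_l x_l²` in the variables of the block `j`, where the sum
is over the variables of the block except `x_a` and `x_b`, and there is at least one such variable,
and all `c_l ≠ 0`. Here `β l` is the block of the variable `x_l`. -/
def IsQuadric {N r : ℕ} (β : Fin N → Fin r) (j : Fin r) {k : Type u} [Field k]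
    (q : MvPolynomial (Fin N) k) : Prop :=
  ∃ (a b : Fin N) (c : Fin N → k), β a = j ∧ β b = j ∧ a ≠ b ∧ (∀ l, c l ≠ 0) ∧
    (∃ l, β l = j ∧ l ≠ a ∧ l ≠ b) ∧
    q = X a * X b + ∑ l ∈ Finset.univ.filter (fun l => β l = j ∧ l ≠ a ∧ l ≠ b),
      C (c l) * X l ^ 2

/-- The exponents of the monomials in the variables `x_l`, for `l < N`, and `z_j`, for `j < r`,
whose degree in `z_j` and the variables of the block `j` is at most `d j`, for all `j`. -/
abbrev Exponent {N r : ℕ} (β : Fin N → Fin r) (d : Fin r → ℕ) : Type :=
  {m : (Fin N ⊕ Fin r) →₀ ℕ //
    ∀ j, (∑ l with β l = j, m (Sum.inl l)) + m (Sum.inr j) ≤ d j}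

/-- The degree of `G` in `z_j` and the variables of the block `j` is at most `d j`, for all `j`. -/
def MultidegreeLE {N r : ℕ} (β : Fin N → Fin r) (d : Fin r → ℕ) {k : Type u} [Field k]
    (G : MvPolynomial (Fin N ⊕ Fin r) k) : Prop :=
  ∀ m ∈ G.support, ∀ j, (∑ l with β l = j, m (Sum.inl l)) + m (Sum.inr j) ≤ d j

/-- The polynomial `f = G(x, q(x))` of the branch divisor. -/
noncomputable def branch {N r : ℕ} {k : Type u} [Field k] (q : Fin r → MvPolynomial (Fin N) k)
    (G : MvPolynomial (Fin N ⊕ Fin r) k) : MvPolynomial (Fin N) k :=
  aeval (Sum.elim X q) G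

theorem sum_append {N r : ℕ} (β : Fin N → Fin r) (j : Fin r) (m : Fin (N + r) → ℕ) :
    ∑ i with bb β i = j, m i =
      (∑ l with β l = j, m (Fin.castAdd r l)) + m (Fin.natAdd N j) := by
  rw [Finset.sum_filter, Fin.sum_univ_add, Finset.sum_filter]
  congr 1
  · refine Finset.sum_congr rfl fun l _ => ?_
    rw [bb_left]
  · rw [Finset.sum_eq_single j]
    · rw [bb_right, if_pos rfl]
    · intro i _ hi
      rw [bb_right, if_neg hi]
    · intro h
      exact absurd (Finset.mem_univ j) h

/-- the exponents -/
theorem mem_expo_iff {N r : ℕ} (β : Fin N → Fin r) (d : Fin r → ℕ) (m : (Fin N ⊕ Fin r) →₀ ℕ) :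
    (∀ j, (∑ l with β l = j, m (Sum.inl l)) + m (Sum.inr j) ≤ d j) ↔
      Finsupp.equivMapDomain finSumFinEquiv m ∈ expo (bb β) d := by
  rw [mem_expo]
  refine forall_congr' fun j => ?_
  rw [sum_append]
  have h1 : ∀ l, (Finsupp.equivMapDomain finSumFinEquiv m) (Fin.castAdd r l) =
      m (Sum.inl l) := by
    intro l
    rw [Finsupp.equivMapDomain_apply, finSumFinEquiv_symm_apply_castAdd]
  have h2 : (Finsupp.equivMapDomain finSumFinEquiv m) (Fin.natAdd N j) = m (Sum.inr j) := by
    rw [Finsupp.equivMapDomain_apply, finSumFinEquiv_symm_apply_natAdd]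
  simp only [h1, h2]

/-- Let the `N` variables be divided in `r` blocks, let `1 ≤ d_j ≤ 4` for all `j`, and for all `j`
let `q_j = 0` (the factor `j` is a projective space), or let `q_j = x_a x_b + ∑ c_l x_l²` be a
nondegenerate quadratic form in the at least three variables of the block `j` (the factor `j` is a
quadric). Suppose that some `q_j ≠ 0`. Then for all polynomials `G` in the variables `x_l` and `z_j`
over `k`, of degree at most `d_j` in `z_j` and the block `j`, for all `j`, whose coefficients are
not a zero of a certain polynomial `Φ ≠ 0` over `k`: `f = G(x, q(x))` is irreducible over the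
algebraic closure, and the double cover `w² = f(x)` is strongly potentially dense. -/
theorem result {N r : ℕ} (k : Type u) [Field k] [CharZero k] (β : Fin N → Fin r) (d : Fin r → ℕ)
    (hd : ∀ j, 1 ≤ d j ∧ d j ≤ 4) (q : Fin r → MvPolynomial (Fin N) k)
    (hq : ∀ j, q j = 0 ∨ IsQuadric β j (q j)) (hex : ∃ j, q j ≠ 0) :
    ∃ Φ : MvPolynomial (Exponent β d) k, Φ ≠ 0 ∧
      ∀ G : MvPolynomial (Fin N ⊕ Fin r) k, MultidegreeLE β d G →
        aeval (fun m : Exponent β d => coeff (m : (Fin N ⊕ Fin r) →₀ ℕ) G) Φ ≠ 0 →
        Irreducible (map (algebraMap k (AlgebraicClosure k)) (branch q G)) ∧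
          StronglyPotentiallyDense (branch q G) := by
  have hprod : IsProd β q := by
    intro j
    rcases hq j with h | ⟨a, b, c, h1, h2, h3, h4, h5, h6⟩
    · exact Or.inl h
    · exact Or.inr ⟨a, b, c, ⟨h1, h2, h3, h4, h6⟩, h5⟩
  obtain ⟨Φ, hΦ, hmain⟩ := general_prod (β := β) (d := d) hprod hd hex
  obtain ⟨ε, hε⟩ : ∃ ε : ((Fin N ⊕ Fin r) →₀ ℕ) ≃ (Fin (N + r) →₀ ℕ),
      ε = Finsupp.equivCongrLeft finSumFinEquiv := ⟨_, rfl⟩
  have hεm : ∀ m, ε m = Finsupp.equivMapDomain finSumFinEquiv m := fun m => by rw [hε]; rfl
  obtain ⟨η, hη⟩ : ∃ η : Exponent β d ≃ expo (bb β) d, ∀ m, ((η m : expo (bb β) d) :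
      Fin (N + r) →₀ ℕ) = ε m := by
    refine ⟨Equiv.subtypeEquiv ε fun m => ?_, fun m => rfl⟩
    rw [hεm]
    exact mem_expo_iff β d m
  refine ⟨rename η.symm Φ, fun h0 => hΦ ?_, ?_⟩
  · exact rename_injective _ (Equiv.injective _) (h0.trans (map_zero _).symm)
  intro G hG hne
  obtain ⟨G', hG'⟩ : ∃ G', G' = rename finSumFinEquiv G := ⟨_, rfl⟩
  have hb : aeval (PP q) G' = branch q G := by
    rw [hG', aeval_rename]
    unfold branch
    congr 2
    funext i
    rcases i with l | j
    · rw [Function.comp_apply, finSumFinEquiv_apply_left, PP_left, Sum.elim_inl]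
    · rw [Function.comp_apply, finSumFinEquiv_apply_right, PP_right, Sum.elim_inr]
  have hcoef : ∀ m, coeff (ε m) G' = coeff m G := by
    intro m
    rw [hG', hεm, Finsupp.equivMapDomain_eq_mapDomain]
    exact coeff_rename_mapDomain _ (Equiv.injective _) _ _
  have hsupp : G'.support ⊆ expo (bb β) d := by
    intro m hm
    obtain ⟨m', rfl⟩ := ε.surjective m
    rw [mem_support_iff, hcoef] at hm
    rw [hεm]
    exact (mem_expo_iff β d m').mp (hG m' (mem_support_iff.mpr hm))
  obtain ⟨h1, h2⟩ := hmain G' hsupp (by
    rw [aeval_rename] at hne
    intro h0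
    apply hne
    rw [← h0]
    congr 2
    funext m
    rw [Function.comp_apply, ← hcoef, ← hη, Equiv.apply_symm_apply])
  rw [hb] at h1 h2
  exact ⟨h1, main_cover h1 (fun ξ hξ => h2 hξ)⟩

end Pool.Agent.Results.MP_b62148_ag.QuadricFactors
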